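import Pool.Agent.Results.MP_e07dae_nt.WindowsWithoutExceptions
import Pool.Agent.V11001.KM.Near

/-!
# The Lang-Waldschmidt inequality without exceptions near the powers of a real number

Let `ν k / log k → ∞`, for example `ν k = k` or `ν k = k !`. For almost every real number `x > 1`, all `n ≥ 1`, `σ ≥ 0`
and `θ` with `n σ + θ < 1/2` the inequality `|P(a, b) - 1| ≥ (1/2) max |b_j| / H(a, b)` (no loss in the exponent) holds
for ALL tuples `a` of `n` positive integers with large product `N = a_1 ⋯ a_n` such that `|N - x ^ (ν k)| ≤ x ^ (θ ν k)`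
for some `k` and ALL tuples `b` of nonzero integers with `|b_j| ≤ N ^ σ`.
-/

set_option autoImplicit false

open Finset Filter Topology MeasureTheory
open scoped ENNReal

namespace Pool.Agent.Results.MP_e07dae_nt.BasesNearPowers

open Pool.Agent.V11001.KM
open WindowsWithoutExceptions (P H maxExp Exc)

/-- the inequality for all the tuples `a` of `n` positive integers with large product `N = a_1 ⋯ a_n` such that
`|N - β x ^ (ν k)| ≤ x ^ (θ ν k)` for some `k`, and all tuples `b` of nonzero integers with `|b_j| ≤ N ^ σ` -/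
def Law (ν : ℕ → ℝ) (n : ℕ) (σ θ β x : ℝ) : Prop :=
  ∃ H₀ : ℝ, ∀ a : Fin n → ℕ, (∀ i, 1 ≤ a i) → H₀ ≤ ((∏ i, a i : ℕ) : ℝ) → Near ν θ β x ((∏ i, a i : ℕ) : ℝ) →
    ∀ b : Fin n → ℤ, (∀ i, b i ≠ 0) → (∀ i, |(b i : ℝ)| ≤ ((∏ j, a j : ℕ) : ℝ) ^ σ) →
      1 / 2 * (maxExp b : ℝ) / (H a b : ℝ) ≤ |P a b - 1|

lemma law_of {ν : ℕ → ℝ} {n : ℕ} {σ θ β x : ℝ}
    (h : ∃ H₀ : ℝ, ∀ a ∈ Exc n σ, Near ν θ β x ((∏ j, a j : ℕ) : ℝ) → ((∏ j, a j : ℕ) : ℝ) < H₀) :
    Law ν n σ θ β x := by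
  obtain ⟨H₀, hH⟩ := h
  refine ⟨H₀, fun a ha hN hn b hb0 hb1 => ?_⟩
  by_contra hcon
  push Not at hcon
  exact absurd hN (not_le.2 (hH a ⟨ha, b, hb0, hb1, hcon⟩ hn))

lemma Law.mono {ν : ℕ → ℝ} {n : ℕ} {σ σ' θ β x : ℝ} (hσ : σ ≤ σ') (h : Law ν n σ' θ β x) : Law ν n σ θ β x := by
  obtain ⟨H₀, hH⟩ := h
  refine ⟨H₀, fun a ha hN hn b hb0 hb1 => hH a ha hN hn b hb0 fun i => (hb1 i).trans ?_⟩
  apply Real.rpow_le_rpow_of_exponent_le _ hσ
  exact_mod_cast Nat.one_le_iff_ne_zero.2 (Finset.prod_ne_zero_iff.2 fun i _ => by have := ha i; omega)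

/-- **Theorem.** Let `ν k / log k → ∞` and let `U` be a countable set of real numbers. (1) For `n ≥ 1`, `σ ≥ 0` and
`θ < 1` there is a set `E` of real numbers of Hausdorff dimension at most `(1/2 + n σ) / (1 - θ)` such that for all
`x > 1` outside `E` and `0 < β` in `U` the inequality `|P(a, b) - 1| ≥ (1/2) max |b_j| / H(a, b)` holds for all tuples
`a` of `n` positive integers with large product `N = a_1 ⋯ a_n` and `|N - β x ^ (ν k)| ≤ x ^ (θ ν k)` for some `k`, and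
all tuples `b` of nonzero integers with `|b_j| ≤ N ^ σ`. (2) For almost every `x > 1` this holds for all `n ≥ 1`,
`σ ≥ 0` and `θ` with `n σ + θ < 1/2` at once. -/
theorem result : ∀ ν : ℕ → ℝ, Fast ν → ∀ U : Set ℝ, U.Countable →
    (∀ (n : ℕ) (σ θ : ℝ), 1 ≤ n → 0 ≤ σ → θ < 1 →
      ∃ E : Set ℝ, dimH E ≤ ENNReal.ofReal ((1 / 2 + n * σ) / (1 - θ)) ∧
        ∀ x : ℝ, 1 < x → x ∉ E → ∀ β ∈ U, 0 < β → Law ν n σ θ β x) ∧
    (∀ᵐ x : ℝ, 1 < x → ∀ (n : ℕ) (σ θ : ℝ), 1 ≤ n → 0 ≤ σ → n * σ + θ < 1 / 2 →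
      ∀ β ∈ U, 0 < β → Law ν n σ θ β x) := by
  intro ν hν U hU
  constructor
  · intro n σ θ hn hσ hθ
    obtain ⟨E, h1, h2⟩ := family_threshold (J := Unit) (fun a : Fin n → ℕ => ((∏ j, a j : ℕ) : ℝ)) hν
      (s := 1 / 2 + n * σ) (by positivity) hθ U hU (fun _ => Exc n σ)
      (fun _ ε hε => WindowsWithoutExceptions.count n hn σ hσ ε hε)
    exact ⟨E, h1, fun x hx hxE β hβ hβ0 => law_of (h2 x hx hxE β hβ hβ0 ())⟩
  · have key : ∀ p : ℕ × ℚ, ∀ᵐ x : ℝ, 1 ≤ p.1 → 0 ≤ p.2 → 1 < x → ∀ θ : ℝ, θ < 1 - (1 / 2 + p.1 * (p.2 : ℝ)) →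
        ∀ β ∈ U, 0 < β → Law ν p.1 p.2 θ β x := by
      rintro ⟨n, q⟩
      by_cases hn : 1 ≤ n
      · by_cases hq : 0 ≤ q
        · have hq' : (0 : ℝ) ≤ q := by exact_mod_cast hq
          have h := ae_family_threshold (J := Unit) (fun a : Fin n → ℕ => ((∏ j, a j : ℕ) : ℝ)) hν
            (s := 1 / 2 + n * (q : ℝ)) (by positivity) U hU (fun _ => Exc n (q : ℝ))
            (fun _ ε hε => WindowsWithoutExceptions.count n hn (q : ℝ) hq' ε hε)
          filter_upwards [h] with x hx _ _ hx1 θ hθ β hβ hβ0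
          exact law_of (hx hx1 θ hθ β hβ hβ0 ())
        · exact Filter.Eventually.of_forall fun x _ h => absurd h hq
      · exact Filter.Eventually.of_forall fun x h => absurd h hn
    filter_upwards [ae_all_iff.2 key] with x hx hx1 n σ θ hn hσ hθ β hβ hβ0
    have hn0 : (0 : ℝ) < n := by exact_mod_cast hn
    have h1 : σ < (1 / 2 - θ) / n := by
      rw [lt_div_iff₀ hn0]
      linarith
    obtain ⟨q, hq1, hq2⟩ := exists_rat_btwn h1
    have hq0 : (0 : ℚ) ≤ q := by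
      have : (0 : ℝ) ≤ q := hσ.trans hq1.le
      exact_mod_cast this
    rw [lt_div_iff₀ hn0] at hq2
    exact (hx (n, q) hn hq0 hx1 θ (by simp only; linarith) β hβ hβ0).mono hq1.le

end Pool.Agent.Results.MP_e07dae_nt.BasesNearPowers
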