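import Pool.Agent.Results.MP_e07dae_nt.WindowsWithoutExceptions
import Pool.Agent.H107.MetricFam

/-!
# The Lang-Waldschmidt inequality for ALL the bases in small residue classes

From `WindowsWithoutExceptions`: `P a b = a_1 ^ b_1 ⋯ a_n ^ b_n`, `H a b = |b_1 ⋯ b_n a_1 ⋯ a_n|`, `maxExp b = max |b_j|`.
-/

set_option autoImplicit false

namespace Pool.Agent.Results.MP_e07dae_nt.TuplesNearPadicPoints

open Finset
open Pool.Agent.Results.MP_e07dae_nt.WindowsWithoutExceptions (P H maxExp Exc)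

/-- Let `n ≥ 1`, `σ ≥ 0`, let `p` be a prime and `s > 0`. For all `α` in `ℤ_p ^ n` outside a set of Hausdorff dimension at most
`(1/2 + n σ) / s`, for ALL but finitely many of the tuples `a` of positive integers with
`|a_i - α_i|_p ≤ (a_1 ⋯ a_n) ^ (-s)` for all `i` the inequality `|P(a, b) - 1| ≥ (1/2) max |b_j| / H(a, b)` (no loss in the
exponent) holds for ALL the tuples `b` of nonzero integers with `|b_j| ≤ (a_1 ⋯ a_n) ^ σ`. -/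
theorem result (n : ℕ) (hn : 1 ≤ n) (σ : ℝ) (hσ : 0 ≤ σ) (p : ℕ) [Fact p.Prime] (s : ℝ) (hs : 0 < s) :
    ∃ E : Set (Fin n → ℤ_[p]), dimH E ≤ ENNReal.ofReal ((1 / 2 + n * σ) / s) ∧ ∀ α : Fin n → ℤ_[p], α ∉ E →
      {a : Fin n → ℕ | (∀ i, 1 ≤ a i) ∧ (∀ i, ‖(a i : ℤ_[p]) - α i‖ ≤ ((∏ j, a j : ℕ) : ℝ) ^ (-s)) ∧
        ¬ ∀ b : Fin n → ℤ, (∀ i, b i ≠ 0) → (∀ i, |(b i : ℝ)| ≤ ((∏ j, a j : ℕ) : ℝ) ^ σ) →
          1 / 2 * (maxExp b : ℝ) / (H a b : ℝ) ≤ |P a b - 1|}.Finite := by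
  classical
  obtain ⟨E, hE1, hE2⟩ := Pool.Agent.H107.ME.dim_family (fun (a : Fin n → ℕ) (i : Fin n) => (a i : ℤ_[p]))
    (fun a : Fin n → ℕ => max 1 ((∏ j, a j : ℕ) : ℝ)) (fun a => le_max_left _ _) (s := 1 / 2 + n * σ) (σ := s)
    (by positivity) hs (J := Unit) (fun _ => Exc n σ) (by
      intro _ ε hε
      obtain ⟨K, hK⟩ := WindowsWithoutExceptions.count n hn σ hσ ε hε
      refine ⟨K, fun X hX => ?_⟩
      obtain ⟨g1, g2⟩ := hK X hX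
      have hsub : {a : Fin n → ℕ | a ∈ Exc n σ ∧ max 1 ((∏ j, a j : ℕ) : ℝ) ≤ X} ⊆
          {a | a ∈ Exc n σ ∧ ((∏ j, a j : ℕ) : ℝ) ≤ X} := fun a ha => ⟨ha.1, (le_max_right _ _).trans ha.2⟩
      refine ⟨g1.subset hsub, le_trans ?_ g2⟩
      exact_mod_cast Set.ncard_le_ncard hsub g1)
  refine ⟨E, hE1, fun α hα => (hE2 α hα ()).subset ?_⟩
  rintro a ⟨h1, h2, h3⟩
  push Not at h3
  obtain ⟨b, hb1, hb2, hb3⟩ := h3
  have hprod : (1 : ℝ) ≤ ((∏ j, a j : ℕ) : ℝ) := by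
    exact_mod_cast Nat.succ_le_of_lt (prod_pos fun j _ => h1 j)
  refine ⟨⟨h1, b, hb1, hb2, hb3⟩, ?_⟩
  rw [max_eq_right hprod]
  rw [dist_pi_le_iff (Real.rpow_nonneg (by linarith) _)]
  intro i
  rw [dist_eq_norm]
  exact h2 i

end Pool.Agent.Results.MP_e07dae_nt.TuplesNearPadicPoints
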